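import Mathlib
import Pool.Agent.QRA.Noise
import Pool.Agent.Helper11.Degree

/-!
The covariance as a sum over blocks of coordinates: Fourier multipliers.
-/

set_option linter.dupNamespace false
set_option linter.unusedSectionVars false

namespace Pool.Agent.Helper24.QW

open Finset Pool.Agent.Helper11.Cube Pool.Agent.Helper11.AA Pool.Agent.QRA

variable {n : ℕ}

lemma coef_sgdd (f : Cube n → ℝ) (j : Fin n) (S : Finset (Fin n)) :
    coef (fun x => sg x j * dd j f x) S = if j ∈ S then coef f S else 0 := by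
  have h : (fun x => sg x j * dd j f x)
      = fun x => ∑ T : Finset (Fin n), (if j ∈ T then coef f T else 0) * chi T x := by
    funext x
    have h3 := sub_flip f j x
    conv_lhs at h3 => rw [inversion f x, inversion f (flipOn {j} x)]
    rw [← Finset.sum_sub_distrib] at h3
    have h4 : ∀ S ∈ (univ : Finset (Finset (Fin n))),
        coef f S * chi S x - coef f S * chi S (flipOn {j} x)
        = 2 * ((if j ∈ S then coef f S else 0) * chi S x) := by
      intro S _
      rw [chi_flip]
      split_ifs with hj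
      · rw [Finset.inter_singleton_of_mem hj]; simp; ring
      · rw [Finset.inter_singleton_of_notMem hj]; simp
    rw [Finset.sum_congr rfl h4, ← Finset.mul_sum] at h3
    rw [dd_eq]
    unfold sg
    linarith
  rw [h, coef_poly]

lemma ex_dd_mul (f h : Cube n → ℝ) (j : Fin n) :
    ex (fun x => dd j f x * dd j h x)
      = ∑ S : Finset (Fin n), if j ∈ S then coef f S * coef h S else 0 := by
  have e : (fun x => dd j f x * dd j h x)
      = fun x => (sg x j * dd j f x) * (sg x j * dd j h x) := by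
    funext x
    linear_combination (-(dd j f x * dd j h x)) * sg_sq x j
  rw [e, plancherel]
  apply Finset.sum_congr rfl; intro S _
  rw [coef_sgdd, coef_sgdd]
  split_ifs <;> simp

lemma ex_dd_sq (f : Cube n → ℝ) (j : Fin n) :
    ex (fun x => dd j f x ^ 2) = ∑ S : Finset (Fin n), if j ∈ S then coef f S ^ 2 else 0 := by
  have := ex_dd_mul f f j
  simp_rw [← sq] at this
  exact this

/-- number of elements of `S` on the level `τ` -/
def cnt (e : Fin n → ℕ) (τ : ℕ) (S : Finset (Fin n)) : ℕ := (S.filter (fun i => e i = τ)).card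

/-- the lowest level of `S` is `τ` -/
def Low (e : Fin n → ℕ) (τ : ℕ) (S : Finset (Fin n)) : Prop :=
  (∀ i ∈ S, τ ≤ e i) ∧ ∃ i ∈ S, e i = τ

open Classical in
/-- coefficients of the part of `g` of lowest level `τ`, divided by the number of elements -/
noncomputable def Hc (e : Fin n → ℕ) (τ : ℕ) (g : Cube n → ℝ) (S : Finset (Fin n)) : ℝ :=
  if Low e τ S then coef g S / cnt e τ S else 0

noncomputable def Hf (e : Fin n → ℕ) (τ : ℕ) (g : Cube n → ℝ) : Cube n → ℝ :=
  fun x => ∑ T : Finset (Fin n), Hc e τ g T * chi T x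

lemma coef_Hf (e : Fin n → ℕ) (τ : ℕ) (g : Cube n → ℝ) (S : Finset (Fin n)) :
    coef (Hf e τ g) S = Hc e τ g S := coef_poly _ _

lemma cnt_pos {e : Fin n → ℕ} {τ : ℕ} {S : Finset (Fin n)} (h : Low e τ S) : 0 < cnt e τ S := by
  obtain ⟨i, hi, hτ⟩ := h.2
  exact Finset.card_pos.mpr ⟨i, Finset.mem_filter.mpr ⟨hi, hτ⟩⟩

lemma dd_Hf_sq_le (e : Fin n → ℕ) (τ : ℕ) (g : Cube n → ℝ) (k : Fin n) :
    ex (fun x => dd k (Hf e τ g) x ^ 2) ≤ ex (fun x => dd k g x ^ 2) := by
  rw [ex_dd_sq, ex_dd_sq]
  apply Finset.sum_le_sum; intro S _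
  split_ifs with hk
  · rw [coef_Hf]
    unfold Hc
    split_ifs with hl
    · rw [div_pow]
      have h1 : (1 : ℝ) ≤ (cnt e τ S : ℝ) := by exact_mod_cast cnt_pos hl
      exact div_le_self (sq_nonneg _) (one_le_pow₀ h1)
    · simp only [ne_eq, OfNat.ofNat_ne_zero, not_false_eq_true, zero_pow]
      exact sq_nonneg _
  · exact le_rfl

lemma dd_Hf_zero {e : Fin n → ℕ} {τ : ℕ} (g : Cube n → ℝ) {k : Fin n} (hk : e k < τ)
    (x : Cube n) : dd k (Hf e τ g) x = 0 := by
  have h0 : ex (fun x => dd k (Hf e τ g) x ^ 2) = 0 := by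
    rw [ex_dd_sq]
    apply Finset.sum_eq_zero; intro S _
    split_ifs with h
    · rw [coef_Hf]
      unfold Hc
      rw [if_neg (fun hl : Low e τ S => absurd (hl.1 k h) (not_le.mpr hk))]
      simp
    · rfl
  unfold ex at h0
  rw [div_eq_zero_iff] at h0
  rcases h0 with h0 | h0
  · have := (Finset.sum_eq_zero_iff_of_nonneg (fun x _ => sq_nonneg _)).mp h0 x (mem_univ x)
    exact pow_eq_zero_iff (two_ne_zero) |>.mp this
  · exact absurd h0 (two_pow_pos n).ne'

/-- **The covariance block by block.** -/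
lemma cov_eq (e : Fin n → ℕ) (f g : Cube n → ℝ) :
    ex (fun x => f x * g x) - ex f * ex g
      = ∑ τ ∈ univ.image e, ∑ j ∈ univ.filter (fun j => e j = τ),
          ex (fun x => dd j f x * dd j (Hf e τ g) x) := by
  have h1 : ex (fun x => f x * g x) - ex f * ex g
      = ∑ S ∈ (univ : Finset (Finset (Fin n))).erase ∅, coef f S * coef g S := by
    rw [plancherel, ← Finset.add_sum_erase _ _ (Finset.mem_univ ∅), coef_empty, coef_empty]
    ring
  have h2 : ∀ τ, ∑ j ∈ univ.filter (fun j => e j = τ),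
      ex (fun x => dd j f x * dd j (Hf e τ g) x)
      = ∑ S : Finset (Fin n), coef f S * ((cnt e τ S : ℝ) * Hc e τ g S) := by
    intro τ
    simp_rw [ex_dd_mul, coef_Hf]
    rw [Finset.sum_comm]
    apply Finset.sum_congr rfl; intro S _
    rw [← Finset.sum_filter, Finset.sum_const, nsmul_eq_mul]
    have : (univ.filter (fun j => e j = τ)).filter (fun j => j ∈ S)
        = S.filter (fun i => e i = τ) := by
      ext j; simp [and_comm]
    rw [this]
    unfold cnt
    ring
  simp_rw [h1, h2]
  rw [Finset.sum_comm, ← Finset.add_sum_erase (univ : Finset (Finset (Fin n)))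
    (fun S => ∑ τ ∈ univ.image e, coef f S * ((cnt e τ S : ℝ) * Hc e τ g S)) (Finset.mem_univ ∅)]
  have h3 : ∑ τ ∈ univ.image e, coef f ∅ * ((cnt e τ ∅ : ℝ) * Hc e τ g ∅) = 0 := by
    apply Finset.sum_eq_zero; intro τ _
    unfold cnt
    simp
  rw [h3, zero_add]
  apply Finset.sum_congr rfl; intro S hS
  have hne : S.Nonempty := Finset.nonempty_iff_ne_empty.mpr (Finset.ne_of_mem_erase hS)
  obtain ⟨i0, hi0, hmin⟩ := Finset.exists_min_image S e hne
  have hlow : Low e (e i0) S := ⟨hmin, i0, hi0, rfl⟩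
  rw [Finset.sum_eq_single (e i0)]
  · unfold Hc
    rw [if_pos hlow]
    have : (cnt e (e i0) S : ℝ) ≠ 0 := by
      exact_mod_cast (cnt_pos hlow).ne'
    field_simp
  · intro τ _ hτ
    unfold Hc
    rw [if_neg, mul_zero, mul_zero]
    intro hl
    obtain ⟨i, hi, hiτ⟩ := hl.2
    have h5 := hmin i hi
    have h6 := hl.1 i0 hi0
    omega
  · intro h
    exact absurd (Finset.mem_image_of_mem e (mem_univ i0)) h

end Pool.Agent.Helper24.QW
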